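import Pool.Agent.H573R2.NonzeroPE

/-! # `{x : x ≠ 0}` is positive-existentially definable in `(ℚ; 0, 1, +, squares)`

The statement uses the same normal form of a positive existential formula as the frozen statement
of Q1: a finite union of projections of sets cut out by integer linear equations and by atoms
saying that a natural-coefficient linear term is a square. -/

namespace Pool.Agent.Results.MP_cd0533_lc.NonzeroDefinable

theorem result :
    ∃ (k m e s : ℕ) (α : Fin k → Fin e → ℤ) (β : Fin k → Fin e → Fin m → ℤ)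
        (γ : Fin k → Fin e → ℤ) (p : Fin k → Fin s → ℕ) (q : Fin k → Fin s → Fin m → ℕ)
        (r : Fin k → Fin s → ℕ),
        ∀ x : ℚ, x ≠ 0 ↔ ∃ i : Fin k, ∃ y : Fin m → ℚ,
          (∀ j : Fin e, (α i j : ℚ) * x + (∑ l : Fin m, (β i j l : ℚ) * y l) + (γ i j : ℚ) = 0) ∧
          (∀ j : Fin s, IsSquare ((p i j : ℚ) * x + (∑ l : Fin m, (q i j l : ℚ) * y l) +
            (r i j : ℚ))) := by
  -- variables: y = (u, v, a, b, c, d, w)
  refine ⟨1, 7, 2, 8,
    fun _ => ![0, 1],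
    fun _ => ![![0, 1, -1, -1, -1, -1, 0], ![1, -2, 0, 0, 0, 0, -1]],
    fun _ => ![-1, 0],
    fun _ => 0,
    fun _ => ![![1, 0, 0, 0, 0, 0, 0], ![0, 1, 0, 0, 0, 0, 0], ![0, 0, 1, 0, 0, 0, 0],
      ![0, 0, 0, 1, 0, 0, 0], ![0, 0, 0, 0, 1, 0, 0], ![0, 0, 0, 0, 0, 1, 0],
      ![0, 0, 0, 0, 0, 0, 1], ![1, 2, 0, 0, 0, 0, 0]],
    fun _ => 0, fun x => ?_⟩
  rw [Pool.Agent.H573R2.NonzeroPE.ne_zero_iff]
  constructor
  · rintro ⟨u, v, a, b, c, d, hv, ha, hb, hc, hd, h2, h3, h4, h5⟩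
    refine ⟨0, ![u, v, a, b, c, d, u - 2 * v + x], ?_, ?_⟩
    · intro j
      fin_cases j <;> simp [Fin.sum_univ_succ] <;> linarith
    · intro j
      fin_cases j <;> simp [Fin.sum_univ_succ] <;> assumption
  · rintro ⟨i, y, h1, h2⟩
    have e0 := h1 0
    have e1 := h1 1
    have s0 := h2 0
    have s1 := h2 1
    have s2 := h2 2
    have s3 := h2 3
    have s4 := h2 4
    have s5 := h2 5
    have s6 := h2 6
    have s7 := h2 7
    simp [Fin.sum_univ_succ] at e0 e1 s0 s1 s2 s3 s4 s5 s6 s7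
    refine ⟨y 0, y 1, y 2, y 3, y 4, y 5, by linarith, s2, s3, s4, s5, s1, s0, s7, ?_⟩
    have : y 0 - 2 * y 1 + x = y 6 := by linarith
    rw [this]
    exact s6

end Pool.Agent.Results.MP_cd0533_lc.NonzeroDefinable
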